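import Pool.Agent.MatchedKnot.Chain

/-!
The knot `8₁₈` has a matched diagram.
-/

namespace Pool.Agent.Results.MP_c6d8e2_gt.EightEighteen

open Pool.Agent.MatchedKnot

/-- The standard diagram of `8₁₈` is isotopic to a matched diagram. -/
theorem result : ∃ w : Word, IsDiagram w ∧ Matched [] w [] ∧ Isotopic w knot818 := main

end Pool.Agent.Results.MP_c6d8e2_gt.EightEighteen
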